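import Pool.Agent.K.MP_31a5ad_lc.C0

set_option autoImplicit false

open Pool.Agent.Lib.PosetForcing Pool.Agent.P.MP_31a5ad_lc

/-- There is a model of ZFC with a tree `T` of height `ω₁` without cofinal branch, of size less
than the continuum, which no forcing notion specialises without adding reals. -/
theorem Pool.Agent.Results.MP_31a5ad_lc.Consistent.result :
    ∃ (M : Type 1) (mem : M → M → Prop), IsZFC mem ∧
      ∃ w o T lt h PW : M, IsOmega mem w ∧ IsOmegaOne mem w o ∧ IsTree mem T lt h o ∧
        NoBranch mem T lt o ∧ (∀ x, mem x PW ↔ ∀ y, mem y x → mem y w) ∧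
        (¬ ∃ f, Onto mem f T PW) ∧
        ¬ ∃ Q le φ, IsForcing mem Q le ∧ NoNewReals mem w Q le ∧
          Specialises mem w T lt Q le φ :=
  Pool.Agent.P.MP_31a5ad_lc.main
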