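import Pool.Agent.P.MP_31a5ad_lc.NMMain

set_option autoImplicit false

open Set Cardinal

universe u

/-- If the Baire space has a nonmeagre subset of size at most `ℵ₁`, there is a tree of size `ℵ₁` and
height `ω₁` all of whose chains are countable that no forcing notion specialises without adding
reals. -/
theorem Pool.Agent.Results.MP_31a5ad_lc.NonMeagre.result (Y : Set (ℕ → ℕ)) (hY : ¬ IsMeagre Y)
    (h1 : #Y ≤ ℵ₁) :
    ∃ (T : Type) (_ : PartialOrder T) (h : T → (ℵ₁ : Cardinal.{0}).ord.ToType),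
      (∀ t : T, IsChain (· ≤ ·) (Iio t)) ∧ StrictMono h ∧ (∀ t, h '' Iio t = Iio (h t)) ∧
      Function.Surjective h ∧ #T = ℵ₁ ∧ (∀ C : Set T, IsChain (· ≤ ·) C → C.Countable) ∧
      ∀ (Q : Type u) [Preorder Q] [Nonempty Q],
        (∀ (σ : ℕ → LowerSet Q) (q : Q), ∃ q' ≤ q, ∀ n,
          (∀ r ≤ q', ∃ r' ≤ r, r' ∈ σ n) ∨ ∀ r ≤ q', r ∉ σ n) →
        ∀ F : T → ℕ → LowerSet Q, (∀ t q, ∃ q' ≤ q, ∃ n, q' ∈ F t n) →
          ∃ s t n q, s < t ∧ q ∈ F s n ∧ q ∈ F t n := by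
  open Pool.Agent.P.MP_31a5ad_lc.NM in
  obtain ⟨B, h2, h3, h4, h5⟩ := main.{u} hY h1
  let R : (⋃ x, B x) → (⋃ x, B x) → Prop := fun s t => Node.Lt s.1 t.1
  have : IsStrictOrder _ R :=
    { irrefl := fun t h => lt_irrefl _ h.1, trans := fun _ _ _ => Node.Lt.trans }
  let _ := partialOrderOfSO R
  have hs : Function.Surjective fun t : (⋃ x, B x) => t.1.ht := fun x => by
    obtain ⟨t, ht, e⟩ := h3 x
    exact ⟨⟨t, mem_iUnion.2 ⟨x, ht⟩⟩, e⟩
  refine ⟨(⋃ x, B x :), inferInstance, fun t => t.1.ht, fun u s hs t ht _ => ?_, fun _ _ h => h.1,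
    fun t => Subset.antisymm ?_ fun x hx => ?_, hs, le_antisymm ?_ ?_, fun C hC => ?_,
    fun Q _ hQ H F hF => ?_⟩
  · rcases Node.tri hs ht with h | h | h
    exacts [Or.inl (Or.inr h), Or.inl (Or.inl (Subtype.ext h)), Or.inr (Or.inr h)]
  · rintro _ ⟨s, hs, rfl⟩
    exact hs.1
  · obtain ⟨s, hs, e⟩ := t.1.exists_restr hx
    obtain ⟨z, hz⟩ := mem_iUnion.1 t.2
    exact ⟨⟨s, mem_iUnion.2 (h4 z _ hz s hs)⟩, hs, e⟩
  · refine (mk_iUnion_le B).trans ?_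
    rw [mk_ord_toType]
    exact (mul_le_mul_right (ciSup_le' fun x => (le_aleph0_iff_set_countable.2 (h2 x)).trans
      aleph0_lt_aleph_one.le) _).trans (mul_eq_self aleph0_lt_aleph_one.le).le
  · exact (mk_ord_toType _).ge.trans (mk_le_of_surjective hs)
  · refine countable_of_injective_of_countable_image Subtype.val_injective.injOn
      (countable_chain ?_)
    rintro _ ⟨s, hs, rfl⟩ _ ⟨t, ht, rfl⟩ hne
    have h := mt (congrArg Subtype.val) hne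
    exact (hC hs ht h).imp (·.resolve_left h) (·.resolve_left (Ne.symm h))
  · obtain ⟨s, t, m, q, h, ⟨hs, g1⟩, ht, g2⟩ := h5 Q
      (fun E hE r => H (fun n => ⟨{s | E n s}, fun a b h => hE n a b h⟩) r) hQ.some
      (fun t m q => ∃ h : t ∈ ⋃ x, B x, q ∈ F ⟨t, h⟩ m)
      (fun t m r s hs h => h.imp fun _ h => (F _ m).lower hs h)
      fun x t ht r => (hF ⟨t, mem_iUnion.2 ⟨x, ht⟩⟩ r).imp fun s h =>
        ⟨h.1, h.2.imp fun m h => ⟨_, h⟩⟩
    exact ⟨⟨s, hs⟩, ⟨t, ht⟩, m, q, h, g1, g2⟩
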