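import Pool.Agent.P.MP_31a5ad_lc.STMain

set_option autoImplicit false

open Set Cardinal

/-- A tree of size less than the continuum all of whose subsets of size at most `ℵ₁` are special
can be specialised without adding reals. -/
theorem Pool.Agent.Results.MP_31a5ad_lc.SmallTrees.result (T : Type) [PartialOrder T]
    [WellFoundedLT T] (hc : ∀ t : T, IsChain (· ≤ ·) (Iio t)) (hT : #T < 𝔠)
    (H : ∀ X : Set T, #X ≤ ℵ₁ → ∃ f : T → ℕ, ∀ s ∈ X, ∀ t ∈ X, s < t → f s ≠ f t) :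
    ∃ (Q : Type) (_ : Preorder Q), Nonempty Q ∧
      (∀ (σ : ℕ → LowerSet Q) (q : Q), ∃ q' ≤ q, ∀ n,
        (∀ r ≤ q', ∃ r' ≤ r, r' ∈ σ n) ∨ ∀ r ≤ q', r ∉ σ n) ∧
      ∃ F : T → ℕ → LowerSet Q, (∀ t q, ∃ q' ≤ q, ∃ n, q' ∈ F t n) ∧
        ∀ s t n q, s < t → q ∈ F s n → q ∉ F t n :=
  Pool.Agent.P.MP_31a5ad_lc.ST.main hc hT H
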